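import Mathlib
import Pool.Agent.H773.IE.SR

/-!
# The level of a good time
-/

set_option autoImplicit false

open MeasureTheory Set Filter Topology
open scoped ENNReal

namespace Pool.Agent.H603.IELG

open Pool.Agent.H773.IE

variable {n : ℕ}

theorem tr_nil (τ : Fin n → ℝ) : tr τ [] = 0 := by simp [tr]

theorem tr_cons (τ : Fin n → ℝ) (j : Fin n) (w : List (Fin n)) : tr τ (j :: w) = τ j + tr τ w := by
  simp [tr]

/-- translation along the orbit -/
theorem iter_eq {T : ℝ → ℝ} {P : Fin n → Set ℝ} {τ : Fin n → ℝ}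
    (htr : ∀ j, ∀ x ∈ P j, T x = x + τ j) (w : List (Fin n)) :
    ∀ x, Follows T P w x → ∀ l, l ≤ w.length → T^[l] x = x + tr τ (w.take l) := by
  induction w with
  | nil =>
    intro x _ l hl
    have : l = 0 := by simpa using hl
    subst this
    simp [tr]
  | cons j w ih =>
    intro x hx l hl
    obtain ⟨h1, h2⟩ := hx
    cases l with
    | zero => simp [tr]
    | succ l =>
      rw [Function.iterate_succ_apply, ih _ h2 l (by simpa using hl), List.take_succ_cons, tr_cons,
        htr j x h1]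
      ring

theorem follows_take {T : ℝ → ℝ} {P : Fin n → Set ℝ} (w : List (Fin n)) :
    ∀ x, Follows T P w x → ∀ l, Follows T P (w.take l) x := by
  induction w with
  | nil => intro x _ l; simp [Follows]
  | cons j w ih =>
    intro x hx l
    cases l with
    | zero => simp [Follows]
    | succ l =>
      rw [List.take_succ_cons]
      exact ⟨hx.1, ih _ hx.2 l⟩

theorem take_eq {T : ℝ → ℝ} {P : Fin n → Set ℝ} (hd : ∀ i j, i ≠ j → Disjoint (P i) (P j))
    (L : ℕ) : ∀ (v w : List (Fin n)) (x : ℝ), Follows T P v x → Follows T P w x →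
      L ≤ v.length → L ≤ w.length → v.take L = w.take L := by
  induction L with
  | zero => intro v w x _ _ _ _; simp
  | succ L ih =>
    intro v w x hv hw h1 h2
    cases v with
    | nil => simp at h1
    | cons i v =>
      cases w with
      | nil => simp at h2
      | cons j w =>
        obtain ⟨h3, h4⟩ := hv
        obtain ⟨h5, h6⟩ := hw
        have hij : i = j := by
          by_contra h
          exact (Set.disjoint_left.1 (hd i j h)) h3 h5
        rw [List.take_succ_cons, List.take_succ_cons, hij,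
          ih v w (T x) h4 h6 (by simpa using h1) (by simpa using h2)]

theorem left_sub {m : ℕ} (r : Equiv.Perm (Fin (m + 1))) {lam : Fin (m + 1) → ℝ}
    (hpos : ∀ i, 0 < lam i) (i : Fin (m + 1)) :
    0 ≤ ∑ j ∈ Finset.univ.filter (fun j => r j < r i), lam j ∧
    ∑ j ∈ Finset.univ.filter (fun j => r j < r i), lam j + lam i ≤ ∑ j, lam j := by
  refine ⟨Finset.sum_nonneg fun j _ => (hpos j).le, ?_⟩
  have h1 : i ∉ Finset.univ.filter (fun j => r j < r i) := by simp
  rw [add_comm, ← Finset.sum_insert h1]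
  exact Finset.sum_le_sum_of_subset_of_nonneg (Finset.subset_univ _) fun j _ _ => (hpos j).le

/-- the floors of the towers are pairwise disjoint -/
theorem floors {m : ℕ} {T : ℝ → ℝ} {P : Fin (m + 1) → Set ℝ} {τ : Fin (m + 1) → ℝ}
    (htr : ∀ j, ∀ x ∈ P j, T x = x + τ j) {s : Sta m} {lam : Fin (m + 1) → ℝ}
    {w : Fin (m + 1) → List (Fin (m + 1))} (hg : Geo T P τ s lam w)
    (h1 : ∑ i, ((w i).length : ℝ) * lam i = 1) (F : Fin (m + 1)) (j k : ℕ)
    (hj : j < (w F).length) (hk : k < (w F).length) (hjk : j ≠ k) :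
    Disjoint (Ico (uT s lam F + tr τ ((w F).take j)) (uT s lam F + tr τ ((w F).take j) + lam F))
      (Ico (uT s lam F + tr τ ((w F).take k)) (uT s lam F + tr τ ((w F).take k) + lam F)) := by
  classical
  set f : (Σ _ : Fin (m + 1), ℕ) → Set ℝ := fun a =>
    Ico (uT s lam a.1 + tr τ ((w a.1).take a.2)) (uT s lam a.1 + tr τ ((w a.1).take a.2) + lam a.1)
    with hf
  have hvol : ∀ a, volume (f a) = ENNReal.ofReal (lam a.1) := by
    intro a
    rw [hf]
    simp only [Real.volume_Ico]
    congr 1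
    ring
  set S : Finset (Σ _ : Fin (m + 1), ℕ) := Finset.univ.sigma fun i => Finset.range (w i).length
    with hS
  have hsum : ∑ a ∈ S, volume (f a) = 1 := by
    rw [hS, Finset.sum_sigma]
    simp only [hvol, Finset.sum_const, Finset.card_range, nsmul_eq_mul]
    rw [← ENNReal.ofReal_one, ← h1, ENNReal.ofReal_sum_of_nonneg]
    · refine Finset.sum_congr rfl fun i _ => ?_
      rw [ENNReal.ofReal_mul (by positivity), ENNReal.ofReal_natCast]
    · intro i _
      exact mul_nonneg (by positivity) (hg.pos i).le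
  have hcov : Ico (0 : ℝ) 1 ⊆ ⋃ a ∈ S, f a := by
    intro y hy
    obtain ⟨i, x, hx, l, hl, hxy⟩ := hg.cover y hy
    rw [Set.mem_iUnion₂]
    refine ⟨⟨i, l⟩, by rw [hS]; simpa using hl, ?_⟩
    rw [iter_eq htr (w i) x (hg.itin i x hx) l hl.le] at hxy
    rw [hf]
    simp only
    rw [← hxy]
    exact ⟨by linarith [hx.1], by linarith [hx.2]⟩
  set A := f ⟨F, j⟩ with hA
  set B := f ⟨F, k⟩ with hB
  have hkS : (⟨F, k⟩ : Σ _ : Fin (m + 1), ℕ) ∈ S := by rw [hS]; simpa using hk
  have hjS : (⟨F, j⟩ : Σ _ : Fin (m + 1), ℕ) ∈ S.erase ⟨F, k⟩ := by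
    rw [Finset.mem_erase]
    refine ⟨?_, by rw [hS]; simpa using hj⟩
    intro h
    apply hjk
    simpa using h
  have hcov2 : Ico (0 : ℝ) 1 ⊆ (⋃ a ∈ S.erase ⟨F, k⟩, f a) ∪ (B \ A) := by
    intro y hy
    have h2 := hcov hy
    rw [Set.mem_iUnion₂] at h2
    obtain ⟨a, ha, hya⟩ := h2
    by_cases h3 : a = ⟨F, k⟩
    · by_cases h4 : y ∈ A
      · left
        rw [Set.mem_iUnion₂]
        exact ⟨_, hjS, h4⟩
      · right
        rw [h3] at hya
        exact ⟨hya, h4⟩
    · left
      rw [Set.mem_iUnion₂]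
      exact ⟨a, Finset.mem_erase.2 ⟨h3, ha⟩, hya⟩
  have hle : (1 : ℝ≥0∞) ≤ ∑ a ∈ S.erase ⟨F, k⟩, volume (f a) + volume (B \ A) := by
    calc (1 : ℝ≥0∞) = volume (Ico (0 : ℝ) 1) := by simp
      _ ≤ volume ((⋃ a ∈ S.erase ⟨F, k⟩, f a) ∪ (B \ A)) := measure_mono hcov2
      _ ≤ volume (⋃ a ∈ S.erase ⟨F, k⟩, f a) + volume (B \ A) := measure_union_le _ _
      _ ≤ _ := by gcongr; exact measure_biUnion_finset_le _ _
  have hAm : MeasurableSet A := measurableSet_Ico
  have hBA : volume (B ∩ A) + volume (B \ A) = volume B := measure_inter_add_sdiff B hAm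
  have htot : ∑ a ∈ S.erase ⟨F, k⟩, volume (f a) + volume B = 1 := by
    rw [← hsum, hB]
    exact Finset.sum_erase_add S (fun a => volume (f a)) hkS
  have h0 : volume (B ∩ A) = 0 := by
    have h5 : volume (B ∩ A) + 1 ≤ 0 + 1 := by
      calc volume (B ∩ A) + 1 ≤ volume (B ∩ A) +
            (∑ a ∈ S.erase ⟨F, k⟩, volume (f a) + volume (B \ A)) := by gcongr
        _ = ∑ a ∈ S.erase ⟨F, k⟩, volume (f a) + (volume (B ∩ A) + volume (B \ A)) := by ring
        _ = 0 + 1 := by rw [hBA, htot, zero_add]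
    have h6 := (ENNReal.add_le_add_iff_right ENNReal.one_ne_top).1 h5
    exact le_antisymm h6 (by simp)
  rw [hA, hB, hf] at h0
  simp only [Ico_inter_Ico, Real.volume_Ico, ENNReal.ofReal_eq_zero, sub_nonpos] at h0
  rw [Set.disjoint_iff_inter_eq_empty, Ico_inter_Ico, Set.Ico_eq_empty_iff, not_lt]
  rw [inf_comm, sup_comm]
  exact h0

theorem t_levgeo : S_levgeo := by
  intro m T P τ hsys s s' lam lam' w w' hg hg' hN L c C hc hL hL' hsum hle hlen hhigh hlow
  set b := ∑ j, lam' j with hb
  have hbpos : 0 < b := Finset.sum_pos (fun i _ => hg'.pos i) Finset.univ_nonempty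
  set F : Fin (m + 1) := s.1.symm 0 with hF
  have hF0 : uT s lam F = 0 := by
    rw [uT, hF, Equiv.apply_symm_apply]
    have : (Finset.univ.filter fun j => s.1 j < 0) = (∅ : Finset (Fin (m + 1))) := by
      rw [Finset.filter_eq_empty_iff]
      intro j _
      exact not_lt.2 (Fin.zero_le _)
    rw [this, Finset.sum_empty]
  have hfol : ∀ x ∈ Ico (0 : ℝ) b, Follows T P (w F) x := by
    intro x hx
    refine hg.itin F x ?_
    rw [hF0]
    exact ⟨hx.1, by linarith [hx.2, hle F]⟩
  have hsubT : ∀ i, 0 ≤ uT s' lam' i ∧ uT s' lam' i + lam' i ≤ b := fun i =>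
    left_sub s'.1 hg'.pos i
  have hsubB : ∀ i, 0 ≤ uB s' lam' i ∧ uB s' lam' i + lam' i ≤ b := fun i =>
    left_sub s'.2 hg'.pos i
  have hplen : ((w F).take L).length = L := by
    rw [List.length_take]; exact min_eq_left (hL F)
  refine ⟨(w F).take L, ?_⟩
  refine
    { bpos := hbpos
      sub := hsubT
      len := hlen
      itin := hg'.itin
      ret := ?_
      cover := hg'.cover
      niel := hN
      pre := ?_
      high := ?_
      low := hlow
      itin0 := ?_
      disj := ?_ }
  · intro i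
    rw [hg'.ret i]
    have h1 := hsubB i
    exact ⟨by linarith, by linarith⟩
  · intro i
    have hpi := hg'.pos i
    have hx' : uT s' lam' i ∈ Ico (uT s' lam' i) (uT s' lam' i + lam' i) := ⟨le_rfl, by linarith⟩
    have h1 := hg'.itin i _ hx'
    have h2 : Follows T P (w F) (uT s' lam' i) :=
      hfol _ ⟨(hsubT i).1, by linarith [(hsubT i).2]⟩
    rw [take_eq hsys.disj L (w F) (w' i) _ h2 h1 (hL F) (hL' i)]
    exact List.take_prefix _ _
  · rw [hplen]; exact hhigh
  · intro x hx
    exact follows_take _ _ (hfol x hx) _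
  · intro j k hj hk hjk
    rw [hplen] at hj hk
    have h1 := floors hsys.trans hg hsum F j k (lt_of_lt_of_le hj (hL F)) (lt_of_lt_of_le hk (hL F))
      hjk
    rw [hF0, zero_add, zero_add] at h1
    rw [List.take_take, List.take_take, min_eq_left hj.le, min_eq_left hk.le]
    have h2 := hle F
    exact h1.mono (Ico_subset_Ico le_rfl (by linarith)) (Ico_subset_Ico le_rfl (by linarith))

end Pool.Agent.H603.IELG
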